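import Mathlib
import Pool.Agent.H771R2.SingerDS

set_option autoImplicit false

namespace Pool.Agent.Results.MP_79499b_co.DensityZero

open Filter Topology

/-- Some finite group `G` (not assumed abelian) of order `(n ^ m - 1) / (n - 1)` contains a
difference set `D` with the Singer parameters:
`k = (n ^ (m - 1) - 1) / (n - 1)`, `lambda = (n ^ (m - 2) - 1) / (n - 1)`. -/
def HasSingerDifferenceSet (n m : ℕ) : Prop :=
  ∃ (G : Type) (_ : Group G) (_ : Fintype G) (_ : DecidableEq G) (D : Finset G),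
    Fintype.card G * (n - 1) = n ^ m - 1 ∧ D.card * (n - 1) = n ^ (m - 1) - 1 ∧
    ∀ g : G, g ≠ 1 →
      ((D ×ˢ D).filter (fun p : G × G => p.1 * p.2⁻¹ = g)).card * (n - 1) = n ^ (m - 2) - 1

/-- For every prime `l`, the set of all `n ≥ 2` such that, for some odd `m ≥ 3` divisible by `l`,
some finite group contains a difference set with the Singer parameters for `(n, m)`, has natural
density zero. -/
theorem result (l : ℕ) (hl : l.Prime) :
    Tendsto (fun N : ℕ =>
      ({n : ℕ | n < N ∧ 2 ≤ n ∧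
        ∃ m : ℕ, Odd m ∧ 3 ≤ m ∧ l ∣ m ∧ HasSingerDifferenceSet n m}.ncard : ℝ) / (N : ℝ))
      atTop (𝓝 0) := by
  classical
  have h := Pool.Agent.H771R2.SingerDS.main hl
  refine h.congr fun N => ?_
  have h1 : {n : ℕ | n < N ∧ 2 ≤ n ∧
      ∃ m : ℕ, Odd m ∧ 3 ≤ m ∧ l ∣ m ∧ HasSingerDifferenceSet n m} =
      ((Finset.range N).filter (fun n => 2 ≤ n ∧
        ∃ m : ℕ, Odd m ∧ 3 ≤ m ∧ l ∣ m ∧ Pool.Agent.H771R2.SingerDS.HasSinger n m) : Finset ℕ) := by
    ext n
    simp only [Finset.coe_filter, Finset.mem_range, Set.mem_ofPred_eq]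
    rfl
  rw [h1, Set.ncard_coe_finset]
  unfold Pool.Agent.H771R2.Dens.cnt
  congr

end Pool.Agent.Results.MP_79499b_co.DensityZero
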