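import Pool.Agent.H152R2.PlanarTwo

/-!
Planar difference sets in abelian groups (Singer parameters with `m = 3`): a three-term relation
`t = s + 2 u` between products of prime divisors of the order `n` is impossible, apart from
`(2 u, 4 u, u)` for even `n` and `(u, 3 u, u)` for `3 ∣ n`.
-/

namespace Pool.Agent.Results.MP_79499b_co.MultiplierRelation

open Pool.Agent.H152R2 Finset

/-- `D` is a `(v, k, l)` difference set in the group `G` of order `v`: it has `k` elements and every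
non-identity `g` has exactly `l` representations `g = d₁ d₂⁻¹` with `d₁, d₂ ∈ D`. -/
def IsDifferenceSet (G : Type*) [Group G] [Fintype G] [DecidableEq G] (v k l : ℕ)
    (D : Finset G) : Prop :=
  Fintype.card G = v ∧ #D = k ∧
    ∀ g : G, g ≠ 1 → #{p ∈ D ×ˢ D | p.1 * p.2⁻¹ = g} = l

lemma toPDS {n : ℕ} {G : Type*} [CommGroup G] [Fintype G] [DecidableEq G] {D : Finset G}
    (hD : IsDifferenceSet G (n ^ 2 + n + 1) (n + 1) 1 D) :
    IsPDS n (D.map (Additive.ofMul (α := G)).toEmbedding) := by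
  obtain ⟨h1, h2, h3⟩ := hD
  refine ⟨?_, by rw [card_map, h2], ?_⟩
  · rw [← h1, ← Nat.card_eq_fintype_card]
    exact Nat.card_congr Additive.toMul
  · intro g hg
    have h4 := h3 (Additive.toMul g) (fun h => hg (by
      apply Additive.toMul.injective
      rw [h]; rfl))
    rw [Finset.card_eq_one] at h4
    obtain ⟨q, hq⟩ := h4
    have hmem : ∀ p : G × G, p ∈ {p ∈ D ×ˢ D | p.1 * p.2⁻¹ = Additive.toMul g} ↔ p = q := by
      intro p; rw [hq, mem_singleton]
    simp only [mem_filter, mem_product] at hmem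
    have hq1 := (hmem q).2 rfl
    refine ⟨(Additive.ofMul q.1, Additive.ofMul q.2), ⟨?_, ?_, ?_⟩, ?_⟩
    · exact mem_map.2 ⟨q.1, hq1.1.1, rfl⟩
    · exact mem_map.2 ⟨q.2, hq1.1.2, rfl⟩
    · apply Additive.toMul.injective
      rw [← hq1.2, ← div_eq_mul_inv]
      rfl
    · rintro ⟨a, b⟩ ⟨ha, hb, hab⟩
      obtain ⟨a', ha', rfl⟩ := mem_map.1 ha
      obtain ⟨b', hb', rfl⟩ := mem_map.1 hb
      have h5 : (a', b') = q := by
        apply (hmem _).1
        refine ⟨⟨ha', hb'⟩, ?_⟩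
        rw [← hab, ← div_eq_mul_inv]
        rfl
      rw [← h5]
      rfl

lemma rel_exponent {n : ℕ} (hn : 2 ≤ n) {G : Type*} [CommGroup G] [Fintype G] [DecidableEq G]
    {D : Finset G} (hD : IsDifferenceSet G (n ^ 2 + n + 1) (n + 1) 1 D)
    {s t u : ℕ} (hs : 0 < s) (ht : 0 < t) (hu : 0 < u)
    (hr : ∀ r : ℕ, r.Prime → r ∣ s * t * u → r ∣ n)
    (hrel : t ≡ s + 2 * u [MOD Monoid.exponent G]) :
    (2 ∣ n ∧ s ≡ 2 * u [MOD Monoid.exponent G] ∧ t ≡ 4 * u [MOD Monoid.exponent G]) ∨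
    (¬ 2 ∣ n ∧ 3 ∣ n ∧ s ≡ u [MOD Monoid.exponent G] ∧ t ≡ 3 * u [MOD Monoid.exponent G]) := by
  obtain ⟨D', h, h0⟩ := (toPDS hD).exists_normalised
  have hpow : ∀ a b : ℕ, a ≡ b [MOD Monoid.exponent G] → ∀ g : Additive G, a • g = b • g := by
    intro a b hab g
    have h1 : (Additive.toMul g) ^ a = (Additive.toMul g) ^ b := by
      rw [pow_eq_pow_iff_modEq]
      exact hab.of_dvd (Monoid.order_dvd_exponent _)
    exact h1
  have hpow' : ∀ a b : ℕ, (∀ g : Additive G, a • g = b • g) → a ≡ b [MOD Monoid.exponent G] := by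
    intro a b hab
    have h1 : ∀ g : G, orderOf g ∣ Int.natAbs ((a : ℤ) - b) := by
      intro g
      have h2 : g ^ a = g ^ b := hab (Additive.ofMul g)
      rw [pow_eq_pow_iff_modEq] at h2
      have h3 := (Nat.modEq_iff_dvd.1 h2)
      rw [← Int.natCast_dvd, ← dvd_neg, neg_sub]
      exact h3
    have h2 : Monoid.exponent G ∣ Int.natAbs ((a : ℤ) - b) := by
      apply Monoid.exponent_dvd_of_forall_pow_eq_one
      intro g
      exact orderOf_dvd_iff_pow_eq_one.1 (h1 g)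
    rw [← Int.natCast_dvd, ← dvd_neg, neg_sub] at h2
    exact Nat.modEq_iff_dvd.2 h2
  have h1 := h.rel h0 hn (s := s) (t := t) (u := u) (by omega) (by omega) (by omega)
    (fun r hrp hrs => hr r hrp ((hrs.mul_right _).mul_right _))
    (fun r hrp hrs => hr r hrp ((hrs.mul_left _).mul_right _))
    (fun r hrp hrs => hr r hrp (hrs.mul_left _))
    (fun g => by rw [hpow _ _ hrel g, add_smul])
  rcases h1 with ⟨h2, h3⟩ | ⟨h2, h2', h3⟩
  · exact Or.inl ⟨h2, hpow' _ _ (fun g => (h3 g).1), hpow' _ _ (fun g => (h3 g).2)⟩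
  · exact Or.inr ⟨h2, h2', hpow' _ _ (fun g => (h3 g).1), hpow' _ _ (fun g => (h3 g).2)⟩

/-- Let `D` be a planar difference set of order `n ≥ 2` in an abelian group `G`, and let `s, t, u` be
positive integers all of whose prime divisors divide `n`.  If `t ≡ s + 2 u` modulo the exponent of
`G`, then either `n` is even, `s ≡ 2 u` and `t ≡ 4 u`, or `n` is odd, `3 ∣ n`, `s ≡ u` and
`t ≡ 3 u`. -/
theorem result (n : ℕ) (hn : 2 ≤ n) (G : Type*) [CommGroup G] [Fintype G] [DecidableEq G]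
    (D : Finset G) (hD : IsDifferenceSet G (n ^ 2 + n + 1) (n + 1) 1 D)
    (s t u : ℕ) (hs : 0 < s) (ht : 0 < t) (hu : 0 < u)
    (hr : ∀ r : ℕ, r.Prime → r ∣ s * t * u → r ∣ n)
    (hrel : t ≡ s + 2 * u [MOD Monoid.exponent G]) :
    (2 ∣ n ∧ s ≡ 2 * u [MOD Monoid.exponent G] ∧ t ≡ 4 * u [MOD Monoid.exponent G]) ∨
    (¬ 2 ∣ n ∧ 3 ∣ n ∧ s ≡ u [MOD Monoid.exponent G] ∧ t ≡ 3 * u [MOD Monoid.exponent G]) :=
  rel_exponent hn hD hs ht hu hr hrel

end Pool.Agent.Results.MP_79499b_co.MultiplierRelation
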