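import Mathlib
import Pool.Agent.H951R4.OD.Final

set_option autoImplicit false

namespace Pool.Agent.Results.MP_79499b_co.OrderCount

/-- Some finite group `G` (not assumed abelian) of order `(n ^ m - 1) / (n - 1)` contains a
difference set `D` with the Singer parameters:
`k = (n ^ (m - 1) - 1) / (n - 1)`, `lambda = (n ^ (m - 2) - 1) / (n - 1)`. -/
def HasSingerDifferenceSet (n m : ℕ) : Prop :=
  ∃ (G : Type) (_ : Group G) (_ : Fintype G) (_ : DecidableEq G) (D : Finset G),
    Fintype.card G * (n - 1) = n ^ m - 1 ∧ D.card * (n - 1) = n ^ (m - 1) - 1 ∧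
    ∀ g : G, g ≠ 1 →
      ((D ×ˢ D).filter (fun p : G × G => p.1 * p.2⁻¹ = g)).card * (n - 1) = n ^ (m - 2) - 1

/-- For every `ε > 0` there is `C` such that for all `X ≥ 3` at most `C X (log X) ^ (ε - 1)` integers
`2 ≤ n ≤ X` are such that, for some odd `m ≥ 3` divisible by `3`, some finite group contains a
difference set with the Singer parameters of `(n, m)`. (For `m = 3` these are the planar difference
sets of order `n`.) -/
theorem result (ε : ℝ) (hε : 0 < ε) :
    ∃ C : ℝ, 0 < C ∧ ∀ X : ℕ, 3 ≤ X →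
      ({n : ℕ | 2 ≤ n ∧ n ≤ X ∧
        ∃ m : ℕ, Odd m ∧ 3 ≤ m ∧ 3 ∣ m ∧ HasSingerDifferenceSet n m}.ncard : ℝ) ≤
      C * X * (Real.log X) ^ (ε - 1) :=
  Pool.Agent.H951R4.OD.singer_count ε hε

end Pool.Agent.Results.MP_79499b_co.OrderCount
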